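import Pool.Agent.TH649.SE.Lin

/-! The coned map is Lipschitz. -/

set_option autoImplicit false

open MeasureTheory
open scoped NNReal

namespace Pool.Agent.TH649.SE

open Pool.Agent.TH630

variable {n : ℕ} {E : Type*} [NormedAddCommGroup E] [NormedSpace ℝ E]

/-- radial projection to the boundary of the corner simplex -/
noncomputable def proj (x : Fin n → ℝ) : Fin n → ℝ := ctr n + (q x)⁻¹ • (x - ctr n)

/-- the cone of a map over the boundary of the corner simplex -/
noncomputable def coneG (f : (Fin n → ℝ) → E) (x : Fin n → ℝ) : E := q x • f (proj x)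

/-- the map equal to the cone inside the corner simplex and to `f` outside -/
noncomputable def coneg (f : (Fin n → ℝ) → E) (x : Fin n → ℝ) : E :=
  open Classical in if q x ≤ 1 then coneG f x else f x

theorem q_proj {x : Fin n → ℝ} (hx : 0 < q x) : q (proj x) = 1 := by
  rw [proj, q_ray x (inv_nonneg.2 hx.le), inv_mul_cancel₀ hx.ne']

theorem norm_proj_sub {x : Fin n → ℝ} (hx : 0 < q x) : ‖proj x - ctr n‖ ≤ 1 :=
  norm_sub_ctr ((q_le_one_iff _).1 (q_proj hx).le)

omit [NormedSpace ℝ E] in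
theorem norm_f_proj {f : (Fin n → ℝ) → E} {K : ℝ≥0} (hf : LipschitzWith K f)
    {x : Fin n → ℝ} (hx : 0 < q x) : ‖f (proj x)‖ ≤ ‖f (ctr n)‖ + K := by
  have h1 : ‖f (proj x) - f (ctr n)‖ ≤ K := by
    refine (hf.norm_sub_le _ _).trans ?_
    have := norm_proj_sub hx
    have hK : (0 : ℝ) ≤ K := K.2
    nlinarith
  calc ‖f (proj x)‖ = ‖f (ctr n) + (f (proj x) - f (ctr n))‖ := by congr 1; abel
    _ ≤ _ := (norm_add_le _ _).trans (by linarith)

theorem coneG_aux {f : (Fin n → ℝ) → E} {K : ℝ≥0} (hf : LipschitzWith K f)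
    {x y : Fin n → ℝ} (hx : q x = 0) :
    ‖coneG f x - coneG f y‖ ≤ |q x - q y| * (‖f (ctr n)‖ + K) := by
  have hx' : coneG f x = 0 := by rw [coneG, hx, zero_smul]
  rw [hx', zero_sub, norm_neg, hx, zero_sub, abs_neg]
  rcases (q_nonneg y).eq_or_lt with hy | hy
  · rw [coneG, ← hy]; simp
  · rw [coneG, norm_smul, Real.norm_eq_abs]
    exact mul_le_mul_of_nonneg_left (norm_f_proj hf hy) (abs_nonneg _)

theorem abs_q_sub (x y : Fin n → ℝ) : |q x - q y| ≤ Cq n * ‖x - y‖ := by
  have := q_lip.dist_le_mul x y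
  rwa [Real.dist_eq, dist_eq_norm] at this

theorem coneG_bound {f : (Fin n → ℝ) → E} {K : ℝ≥0} (hf : LipschitzWith K f) (x y : Fin n → ℝ) :
    ‖coneG f x - coneG f y‖ ≤
      |q x - q y| * (‖f (ctr n)‖ + K) + K * (‖x - y‖ + |q x - q y|) := by
  have hK : (0 : ℝ) ≤ K := K.2
  have hpos : 0 ≤ K * (‖x - y‖ + |q x - q y|) := by positivity
  rcases (q_nonneg x).eq_or_lt with hx | hx
  · have := coneG_aux hf (y := y) hx.symm
    linarith
  rcases (q_nonneg y).eq_or_lt with hy | hy
  · have := coneG_aux hf (y := x) hy.symm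
    rw [norm_sub_rev, abs_sub_comm] at this
    linarith
  have e : coneG f x - coneG f y = (q x - q y) • f (proj x) + q y • (f (proj x) - f (proj y)) := by
    rw [coneG, coneG, sub_smul, smul_sub]; abel
  have h1 : ‖(q x - q y) • f (proj x)‖ ≤ |q x - q y| * (‖f (ctr n)‖ + K) := by
    rw [norm_smul, Real.norm_eq_abs]
    exact mul_le_mul_of_nonneg_left (norm_f_proj hf hx) (abs_nonneg _)
  have h3 : q y • (proj x - proj y) = (x - y) + (q y - q x) • (proj x - ctr n) := by
    simp only [proj, add_sub_cancel_left]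
    rw [sub_smul]
    have e1 : q x • (q x)⁻¹ • (x - ctr n) = x - ctr n := by
      rw [smul_smul, mul_inv_cancel₀ hx.ne', one_smul]
    have e2 : q y • (q y)⁻¹ • (y - ctr n) = y - ctr n := by
      rw [smul_smul, mul_inv_cancel₀ hy.ne', one_smul]
    rw [e1, add_sub_add_left_eq_sub, smul_sub, e2]
    abel
  have h2 : ‖q y • (f (proj x) - f (proj y))‖ ≤ K * (‖x - y‖ + |q x - q y|) := by
    rw [norm_smul, Real.norm_eq_abs, abs_of_pos hy]
    have h4 := hf.norm_sub_le (proj x) (proj y)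
    have h5 : q y * ‖proj x - proj y‖ ≤ ‖x - y‖ + |q x - q y| := by
      have : q y * ‖proj x - proj y‖ = ‖q y • (proj x - proj y)‖ := by
        rw [norm_smul, Real.norm_eq_abs, abs_of_pos hy]
      rw [this, h3]
      refine (norm_add_le _ _).trans ?_
      rw [norm_smul, Real.norm_eq_abs, abs_sub_comm (q y) (q x)]
      have h6 := norm_proj_sub hx
      have h7 := abs_nonneg (q x - q y)
      nlinarith
    calc q y * ‖f (proj x) - f (proj y)‖ ≤ q y * (K * ‖proj x - proj y‖) :=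
          mul_le_mul_of_nonneg_left h4 hy.le
      _ = K * (q y * ‖proj x - proj y‖) := by ring
      _ ≤ _ := mul_le_mul_of_nonneg_left h5 hK
  rw [e]
  exact (norm_add_le _ _).trans (add_le_add h1 h2)

/-- a Lipschitz constant of the cone -/
noncomputable def KG (f : (Fin n → ℝ) → E) (K : ℝ≥0) : ℝ≥0 :=
  Cq n * (‖f (ctr n)‖₊ + K) + K * (1 + Cq n)

theorem coneG_lip {f : (Fin n → ℝ) → E} {K : ℝ≥0} (hf : LipschitzWith K f) :
    LipschitzWith (KG f K) (coneG f) := by
  refine LipschitzWith.of_dist_le_mul fun x y => ?_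
  rw [dist_eq_norm, dist_eq_norm]
  refine (coneG_bound hf x y).trans ?_
  have h1 := abs_q_sub x y
  have hK : (0 : ℝ) ≤ K := K.2
  have hn : 0 ≤ ‖f (ctr n)‖ := norm_nonneg _
  have e : ((KG f K : ℝ≥0) : ℝ) = Cq n * (‖f (ctr n)‖ + K) + K * (1 + Cq n) := by
    simp [KG]
  rw [e]
  have h2 : |q x - q y| * (‖f (ctr n)‖ + K) ≤ (Cq n * ‖x - y‖) * (‖f (ctr n)‖ + K) :=
    mul_le_mul_of_nonneg_right h1 (by linarith)
  have h3 : (K : ℝ) * (‖x - y‖ + |q x - q y|) ≤ K * (‖x - y‖ + Cq n * ‖x - y‖) :=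
    mul_le_mul_of_nonneg_left (by linarith) hK
  nlinarith

theorem coneG_eq_of_q_eq_one {f : (Fin n → ℝ) → E} {x : Fin n → ℝ} (hx : q x = 1) :
    coneG f x = f x := by
  rw [coneG, proj, hx]; simp

theorem coneg_of_le {f : (Fin n → ℝ) → E} {x : Fin n → ℝ} (hx : q x ≤ 1) :
    coneg f x = coneG f x := by
  rw [coneg, if_pos hx]

theorem coneg_of_ge {f : (Fin n → ℝ) → E} {x : Fin n → ℝ} (hx : 1 ≤ q x) :
    coneg f x = f x := by
  rcases hx.eq_or_lt with hx | hx
  · rw [coneg_of_le hx.ge, coneG_eq_of_q_eq_one hx.symm]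
  · rw [coneg, if_neg (not_le.2 hx)]

theorem coneg_aux {f : (Fin n → ℝ) → E} {K : ℝ≥0} (hf : LipschitzWith K f)
    {x y : Fin n → ℝ} (hx : q x ≤ 1) (hy : 1 ≤ q y) :
    dist (coneg f x) (coneg f y) ≤ (KG f K + K : ℝ≥0) * dist x y := by
  have hc : ContinuousOn (fun t : ℝ => q (AffineMap.lineMap x y t)) (Set.Icc 0 1) := by
    apply Continuous.continuousOn
    exact q_lip.continuous.comp AffineMap.lineMap_continuous
  have h01 : (0 : ℝ) ≤ 1 := zero_le_one
  have hiv := intermediate_value_Icc h01 hc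
  have h1 : (1 : ℝ) ∈ Set.Icc (q (AffineMap.lineMap x y (0 : ℝ))) (q (AffineMap.lineMap x y (1 : ℝ))) := by
    simp only [AffineMap.lineMap_apply_zero, AffineMap.lineMap_apply_one]
    exact ⟨hx, hy⟩
  obtain ⟨t, ht, hqt⟩ := hiv h1
  set z := AffineMap.lineMap x y t with hz
  have hqz : q z = 1 := hqt
  have hd1 : dist x z ≤ dist x y := by
    rw [hz, dist_left_lineMap, Real.norm_eq_abs, abs_of_nonneg ht.1]
    have := dist_nonneg (x := x) (y := y)
    nlinarith [ht.2]
  have hd2 : dist z y ≤ dist x y := by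
    rw [hz, dist_lineMap_right, Real.norm_eq_abs, abs_of_nonneg (by linarith [ht.2])]
    have := dist_nonneg (x := x) (y := y)
    nlinarith [ht.1]
  have e1 : dist (coneg f x) (coneg f z) ≤ KG f K * dist x z := by
    rw [coneg_of_le hx, coneg_of_le hqz.le]
    exact (coneG_lip hf).dist_le_mul x z
  have e2 : dist (coneg f z) (coneg f y) ≤ K * dist z y := by
    rw [coneg_of_ge hqz.ge, coneg_of_ge hy]
    exact hf.dist_le_mul z y
  have hK : (0 : ℝ) ≤ K := K.2
  have hG : (0 : ℝ) ≤ KG f K := (KG f K).2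
  calc dist (coneg f x) (coneg f y) ≤ dist (coneg f x) (coneg f z) + dist (coneg f z) (coneg f y) :=
        dist_triangle _ _ _
    _ ≤ KG f K * dist x z + K * dist z y := add_le_add e1 e2
    _ ≤ KG f K * dist x y + K * dist x y :=
        add_le_add (mul_le_mul_of_nonneg_left hd1 hG) (mul_le_mul_of_nonneg_left hd2 hK)
    _ = _ := by push_cast; ring

theorem coneg_lip {f : (Fin n → ℝ) → E} {K : ℝ≥0} (hf : LipschitzWith K f) :
    LipschitzWith (KG f K + K) (coneg f) := by
  refine LipschitzWith.of_dist_le_mul fun x y => ?_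
  have hK : (0 : ℝ) ≤ K := K.2
  have hG : (0 : ℝ) ≤ KG f K := (KG f K).2
  have hd : 0 ≤ dist x y := dist_nonneg
  rcases le_total (q x) 1 with hx | hx
  · rcases le_total (q y) 1 with hy | hy
    · rw [coneg_of_le hx, coneg_of_le hy]
      refine ((coneG_lip hf).dist_le_mul x y).trans ?_
      push_cast
      nlinarith
    · exact coneg_aux hf hx hy
  · rcases le_total (q y) 1 with hy | hy
    · rw [dist_comm, dist_comm x y]
      exact coneg_aux hf hy hx
    · rw [coneg_of_ge hx, coneg_of_ge hy]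
      refine (hf.dist_le_mul x y).trans ?_
      push_cast
      nlinarith

end Pool.Agent.TH649.SE
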