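import Pool.Agent.TH630.Fill.Vol

/-! Barycentric gauge on the corner simplex, and the affine maps of its cone decomposition. -/

set_option autoImplicit false

open MeasureTheory
open scoped NNReal

namespace Pool.Agent.TH649.SE

open Pool.Agent.TH630

variable {n : ℕ}

/-- the gauge of the corner simplex about its barycentre -/
noncomputable def q (x : Fin n → ℝ) : ℝ :=
  Finset.univ.sup' Finset.univ_nonempty (fun i : Fin (n + 1) => 1 - (n + 1) * bary x i)

/-- the barycentre -/
noncomputable def ctr (n : ℕ) : Fin n → ℝ := fun _ => 1 / (n + 1 : ℝ)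

theorem bary_zero (x : Fin n → ℝ) : bary x 0 = 1 - ∑ i, x i := rfl
theorem bary_succ (x : Fin n → ℝ) (j : Fin n) : bary x j.succ = x j := rfl

theorem sum_bary (x : Fin n → ℝ) : ∑ i, bary x i = 1 := by
  rw [Fin.sum_univ_succ]; simp [bary_zero, bary_succ]

theorem n1 (n : ℕ) : (0 : ℝ) < (n : ℝ) + 1 := by positivity

theorem bary_ray (x : Fin n → ℝ) (l : ℝ) (i : Fin (n + 1)) :
    bary (ctr n + l • (x - ctr n)) i = 1 / (n + 1) + l * (bary x i - 1 / (n + 1)) := by
  have h := n1 n
  refine Fin.cases ?_ (fun j => ?_) i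
  · rw [bary_zero, bary_zero]
    simp only [Pi.add_apply, Pi.smul_apply, Pi.sub_apply, ctr, smul_eq_mul]
    rw [Finset.sum_add_distrib, ← Finset.mul_sum, Finset.sum_sub_distrib]
    simp only [Finset.sum_const, Finset.card_univ, Fintype.card_fin, nsmul_eq_mul]
    field_simp
    ring
  · simp [bary_succ, ctr]

theorem le_q (x : Fin n → ℝ) (i : Fin (n + 1)) : 1 - (n + 1) * bary x i ≤ q x :=
  Finset.le_sup' (fun i : Fin (n + 1) => 1 - ((n : ℝ) + 1) * bary x i) (Finset.mem_univ i)

theorem q_le {x : Fin n → ℝ} {a : ℝ} (h : ∀ i, 1 - (n + 1) * bary x i ≤ a) : q x ≤ a :=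
  Finset.sup'_le _ _ fun i _ => h i

theorem q_nonneg (x : Fin n → ℝ) : 0 ≤ q x := by
  by_contra hq
  push Not at hq
  have h1 : ∑ i : Fin (n + 1), (1 - ((n : ℝ) + 1) * bary x i) < 0 := by
    refine Finset.sum_neg (fun i _ => (le_q x i).trans_lt hq) Finset.univ_nonempty
  rw [Finset.sum_sub_distrib, ← Finset.mul_sum, sum_bary] at h1
  simp at h1

theorem q_ray (x : Fin n → ℝ) {l : ℝ} (hl : 0 ≤ l) : q (ctr n + l • (x - ctr n)) = l * q x := by
  have h := n1 n
  have key : ∀ i, 1 - ((n : ℝ) + 1) * bary (ctr n + l • (x - ctr n)) i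
      = l * (1 - (n + 1) * bary x i) := by
    intro i
    rw [bary_ray]
    field_simp
    ring
  apply le_antisymm
  · refine q_le fun i => ?_
    rw [key]
    exact mul_le_mul_of_nonneg_left (le_q x i) hl
  · obtain ⟨i, -, hi⟩ := Finset.exists_mem_eq_sup' (Finset.univ_nonempty (α := Fin (n + 1)))
      (fun i : Fin (n + 1) => 1 - ((n : ℝ) + 1) * bary x i)
    have : q x = 1 - ((n : ℝ) + 1) * bary x i := hi
    rw [this, ← key]
    exact le_q _ i

theorem mem_corner_iff (x : Fin n → ℝ) : x ∈ corner n ↔ ∀ i, 0 ≤ bary x i := by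
  constructor
  · rintro ⟨h1, h2⟩ i
    refine Fin.cases ?_ (fun j => ?_) i
    · rw [bary_zero]; linarith
    · rw [bary_succ]; exact h1 j
  · intro h
    refine ⟨fun j => h j.succ, ?_⟩
    have := h 0
    rw [bary_zero] at this
    linarith

theorem q_le_one_iff (x : Fin n → ℝ) : q x ≤ 1 ↔ x ∈ corner n := by
  rw [mem_corner_iff]
  have h := n1 n
  constructor
  · intro hq i
    have := (le_q x i).trans hq
    nlinarith
  · intro hb
    refine q_le fun i => ?_
    have := hb i
    nlinarith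

theorem ctr_mem : ctr n ∈ corner n := by
  have h := n1 n
  refine ⟨fun i => by unfold ctr; positivity, ?_⟩
  simp only [ctr, Finset.sum_const, Finset.card_univ, Fintype.card_fin, nsmul_eq_mul]
  rw [mul_one_div, div_le_one h]
  linarith

theorem corner_coord {x : Fin n → ℝ} (hx : x ∈ corner n) (i : Fin n) : x i ∈ Set.Icc (0 : ℝ) 1 := by
  refine ⟨hx.1 i, le_trans ?_ hx.2⟩
  exact Finset.single_le_sum (fun j _ => hx.1 j) (Finset.mem_univ i)

theorem norm_sub_ctr {x : Fin n → ℝ} (hx : x ∈ corner n) : ‖x - ctr n‖ ≤ 1 := by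
  rw [pi_norm_le_iff_of_nonneg zero_le_one]
  intro i
  have h1 := corner_coord hx i
  have h2 := corner_coord (ctr_mem (n := n)) i
  rw [Pi.sub_apply, Real.norm_eq_abs, abs_le]
  constructor <;> linarith [h1.1, h1.2, h2.1, h2.2]

theorem abs_bary_sub (x y : Fin n → ℝ) (i : Fin (n + 1)) :
    |bary x i - bary y i| ≤ (n + 1) * dist x y := by
  have hd : 0 ≤ dist x y := dist_nonneg
  have hn : (0 : ℝ) ≤ n := Nat.cast_nonneg n
  refine Fin.cases ?_ (fun j => ?_) i
  · rw [bary_zero, bary_zero]
    have : (1 - ∑ i, x i) - (1 - ∑ i, y i) = -∑ i, (x i - y i) := by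
      rw [Finset.sum_sub_distrib]; ring
    rw [this, abs_neg]
    calc |∑ i, (x i - y i)| ≤ ∑ i, |x i - y i| := Finset.abs_sum_le_sum_abs _ _
      _ ≤ ∑ _i : Fin n, dist x y := Finset.sum_le_sum fun i _ => by
          rw [← Real.dist_eq]; exact dist_le_pi_dist x y i
      _ = n * dist x y := by simp
      _ ≤ (n + 1) * dist x y := by nlinarith
  · rw [bary_succ, bary_succ, ← Real.dist_eq]
    have := dist_le_pi_dist x y j
    nlinarith

/-- a Lipschitz constant of the gauge -/
noncomputable def Cq (n : ℕ) : ℝ≥0 := ((n : ℝ≥0) + 1) * ((n : ℝ≥0) + 1)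

theorem q_lip : LipschitzWith (Cq n) (q : (Fin n → ℝ) → ℝ) := by
  refine LipschitzWith.of_le_add_mul _ fun x y => q_le fun i => ?_
  have h1 := abs_bary_sub x y i
  have h2 := le_q y i
  have h3 : (Cq n : ℝ) = ((n : ℝ) + 1) * (n + 1) := by simp [Cq]
  rw [h3]
  have h4 : bary y i - bary x i ≤ (n + 1) * dist x y := by
    have := neg_abs_le (bary x i - bary y i)
    linarith
  have h5 := n1 n
  nlinarith

/-! ### the affine maps -/

/-- the `i`-th affine map of the corner simplex onto a piece of the cone decomposition -/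
noncomputable def Amap (i : Fin (n + 1)) (t : Fin n → ℝ) : Fin n → ℝ :=
  fun j => (i.insertNth (0 : ℝ) t : Fin (n + 1) → ℝ) j.succ + (1 - ∑ k, t k) / (n + 1)

theorem sum_insertNth (i : Fin (n + 1)) (t : Fin n → ℝ) :
    ∑ k, (i.insertNth (0 : ℝ) t : Fin (n + 1) → ℝ) k = ∑ k, t k := by
  rw [Fin.sum_univ_succAbove _ i]
  simp

theorem bary_Amap (i k : Fin (n + 1)) (t : Fin n → ℝ) :
    bary (Amap i t) k = (i.insertNth (0 : ℝ) t : Fin (n + 1) → ℝ) k + (1 - ∑ k, t k) / (n + 1) := by
  have h := n1 n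
  refine Fin.cases ?_ (fun j => ?_) k
  · rw [bary_zero]
    have h1 := sum_insertNth i t
    rw [Fin.sum_univ_succ] at h1
    simp only [Amap]
    rw [Finset.sum_add_distrib]
    simp only [Finset.sum_const, Finset.card_univ, Fintype.card_fin, nsmul_eq_mul]
    have h2 : ∑ i_1 : Fin n, (i.insertNth (0 : ℝ) t : Fin (n + 1) → ℝ) i_1.succ
      = ∑ k, t k - (i.insertNth (0 : ℝ) t : Fin (n + 1) → ℝ) 0 := by linarith
    rw [h2]
    field_simp
    ring
  · rw [bary_succ]; rfl

theorem insert_nonneg {t : Fin n → ℝ} (ht : ∀ k, 0 ≤ t k) (i k : Fin (n + 1)) :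
    0 ≤ (i.insertNth (0 : ℝ) t : Fin (n + 1) → ℝ) k := by
  refine Fin.succAboveCases i ?_ (fun j => ?_) k
  · simp
  · simpa using ht j

theorem q_Amap {t : Fin n → ℝ} (ht : ∀ k, 0 ≤ t k) (i : Fin (n + 1)) :
    q (Amap i t) = ∑ k, t k := by
  have h := n1 n
  have key : ∀ k, 1 - ((n : ℝ) + 1) * bary (Amap i t) k
      = ∑ k, t k - (n + 1) * (i.insertNth (0 : ℝ) t : Fin (n + 1) → ℝ) k := by
    intro k
    rw [bary_Amap]
    field_simp
    ring
  apply le_antisymm
  · refine q_le fun k => ?_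
    rw [key]
    have := insert_nonneg ht i k
    nlinarith
  · have := le_q (Amap i t) i
    rw [key] at this
    simpa using this

/-- the pieces -/
def piece (i : Fin (n + 1)) : Set (Fin n → ℝ) := {x | x ∈ corner n ∧ ∀ k, bary x i ≤ bary x k}

theorem bary_inj {x y : Fin n → ℝ} (h : ∀ i, bary x i = bary y i) : x = y := by
  funext j
  have := h j.succ
  rwa [bary_succ, bary_succ] at this

theorem Amap_inj (i : Fin (n + 1)) : Function.Injective (Amap (n := n) i) := by
  intro t t' h
  have h1 : ∀ k, (i.insertNth (0 : ℝ) t : Fin (n + 1) → ℝ) k + (1 - ∑ k, t k) / (n + 1)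
      = (i.insertNth (0 : ℝ) t' : Fin (n + 1) → ℝ) k + (1 - ∑ k, t' k) / (n + 1) := by
    intro k
    rw [← bary_Amap, ← bary_Amap, h]
  have h2 := h1 i
  simp only [Fin.insertNth_apply_same, zero_add] at h2
  funext j
  have h3 := h1 (i.succAbove j)
  simp only [Fin.insertNth_apply_succAbove] at h3
  linarith

theorem Amap_image (i : Fin (n + 1)) : Amap i '' corner n = piece i := by
  have h := n1 n
  ext x
  constructor
  · rintro ⟨t, ht, rfl⟩
    refine ⟨?_, ?_⟩
    · rw [mem_corner_iff]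
      intro k
      rw [bary_Amap]
      have h1 := insert_nonneg ht.1 i k
      have h2 : 0 ≤ (1 - ∑ k, t k) / ((n : ℝ) + 1) := div_nonneg (by linarith [ht.2]) h.le
      linarith
    · intro k
      rw [bary_Amap, bary_Amap]
      have h1 := insert_nonneg ht.1 i k
      simp only [Fin.insertNth_apply_same]
      linarith
  · rintro ⟨hx, hmin⟩
    rw [mem_corner_iff] at hx
    have hs := sum_bary x
    rw [Fin.sum_univ_succAbove _ i] at hs
    have hsum : ∑ j, (bary x (i.succAbove j) - bary x i) = 1 - (n + 1) * bary x i := by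
      rw [Finset.sum_sub_distrib]
      simp only [Finset.sum_const, Finset.card_univ, Fintype.card_fin, nsmul_eq_mul]
      linarith
    refine ⟨fun j => bary x (i.succAbove j) - bary x i, ⟨fun j => ?_, ?_⟩, ?_⟩
    · linarith [hmin (i.succAbove j)]
    · rw [hsum]
      have := hx i
      nlinarith
    · apply bary_inj
      intro k
      rw [bary_Amap, hsum]
      have e : (1 - (1 - ((n : ℝ) + 1) * bary x i)) / (n + 1) = bary x i := by
        field_simp
        ring
      rw [e]
      refine Fin.succAboveCases i ?_ (fun j => ?_) k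
      · simp
      · simp

theorem corner_eq_iUnion : corner n = ⋃ i : Fin (n + 1), piece i := by
  ext x
  simp only [Set.mem_iUnion]
  constructor
  · intro hx
    obtain ⟨i, -, hi⟩ := Finset.exists_min_image (Finset.univ : Finset (Fin (n + 1)))
      (fun i => bary x i) Finset.univ_nonempty
    exact ⟨i, hx, fun k => hi k (Finset.mem_univ k)⟩
  · rintro ⟨i, hx, -⟩
    exact hx

end Pool.Agent.TH649.SE
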