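import Pool.Agent.TH649.SE.Cone

/-! Integration of the Jacobian determinant over the corner simplex. -/

set_option autoImplicit false

open MeasureTheory
open scoped NNReal

namespace Pool.Agent.TH649.SE

open Pool.Agent.TH630

variable {n : ℕ}

/-! ### the corner simplex -/

theorem isClosed_corner : IsClosed (corner n) := by
  have : corner n = {x : Fin n → ℝ | q x ≤ 1} := by
    ext x; exact (q_le_one_iff x).symm
  rw [this]
  exact isClosed_le q_lip.continuous continuous_const

theorem isCompact_corner : IsCompact (corner n) := by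
  refine Metric.isCompact_of_isClosed_isBounded isClosed_corner ?_
  refine (Metric.isBounded_closedBall (x := ctr n) (r := 1)).subset fun x hx => ?_
  rw [Metric.mem_closedBall, dist_eq_norm]
  exact norm_sub_ctr hx

theorem convex_corner : Convex ℝ (corner n) := by
  intro x hx y hy a b ha hb hab
  refine ⟨fun i => ?_, ?_⟩
  · have h1 := hx.1 i
    have h2 := hy.1 i
    simp only [Pi.add_apply, Pi.smul_apply, smul_eq_mul]
    positivity
  · simp only [Pi.add_apply, Pi.smul_apply, smul_eq_mul]
    rw [Finset.sum_add_distrib, ← Finset.mul_sum, ← Finset.mul_sum]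
    nlinarith [hx.2, hy.2]

theorem ae_mem_interior : ∀ᵐ x ∂(volume.restrict (corner n)), x ∈ interior (corner n) := by
  have h0 : (volume : Measure (Fin n → ℝ)) (frontier (corner n)) = 0 :=
    convex_corner.addHaar_frontier _
  rw [ae_restrict_iff' isClosed_corner.measurableSet]
  have h1 : ∀ᵐ x ∂(volume : Measure (Fin n → ℝ)), x ∉ frontier (corner n) := by
    rw [ae_iff]
    simpa using h0
  filter_upwards [h1] with x hx hxc
  by_contra hxi
  exact hx ⟨subset_closure hxc, hxi⟩

/-- two maps equal on the corner simplex have the same Jacobian integral there -/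
theorem integral_congr_corner {f g : (Fin n → ℝ) → (Fin n → ℝ)}
    (h : ∀ x ∈ corner n, f x = g x) :
    ∫ x in corner n, (fderiv ℝ f x).det = ∫ x in corner n, (fderiv ℝ g x).det := by
  apply integral_congr_ae
  filter_upwards [ae_mem_interior] with x hx
  have : f =ᶠ[nhds x] g := by
    filter_upwards [isOpen_interior.mem_nhds hx] with y hy
    exact h y (interior_subset hy)
  rw [this.fderiv_eq]

theorem measurable_det_fderiv (f : (Fin n → ℝ) → (Fin n → ℝ)) :
    Measurable fun x => (fderiv ℝ f x).det := by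
  exact ContinuousLinearMap.continuous_det.measurable.comp (measurable_fderiv ℝ f)

theorem exists_bound_det (K : ℝ≥0) : ∃ C : ℝ, ∀ f : (Fin n → ℝ) → (Fin n → ℝ),
    LipschitzWith K f → ∀ x, ‖(fderiv ℝ f x).det‖ ≤ C := by
  have hc : IsCompact (Metric.closedBall (0 : (Fin n → ℝ) →L[ℝ] (Fin n → ℝ)) (K : ℝ)) :=
    isCompact_closedBall _ _
  obtain ⟨C, hC⟩ := hc.exists_bound_of_continuousOn
    (ContinuousLinearMap.continuous_det (𝕜 := ℝ) (E := Fin n → ℝ)).continuousOn
  refine ⟨C, fun f hf x => hC _ ?_⟩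
  rw [Metric.mem_closedBall, dist_zero_right]
  exact norm_fderiv_le_of_lipschitz ℝ hf

theorem integrableOn_det {f : (Fin n → ℝ) → (Fin n → ℝ)} {K : ℝ≥0} (hf : LipschitzWith K f)
    {S : Set (Fin n → ℝ)} (hS : IsCompact S) : IntegrableOn (fun x => (fderiv ℝ f x).det) S := by
  obtain ⟨C, hC⟩ := exists_bound_det (n := n) K
  exact IntegrableOn.of_bound hS.measure_lt_top
    (measurable_det_fderiv f).aestronglyMeasurable C (Filter.Eventually.of_forall (hC f hf))

/-! ### the pieces -/

theorem isClosed_piece (i : Fin (n + 1)) : IsClosed (piece (n := n) i) := by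
  rw [← Amap_image]
  have hc : Continuous (Amap (n := n) i) := by
    have : Amap (n := n) i = fun t => Amap i 0 + Li i t := funext (Amap_eq i)
    rw [this]
    exact continuous_const.add (Li i).continuous
  exact (isCompact_corner.image hc).isClosed

/-- the linear part of a barycentric coordinate -/
noncomputable def psi (n : ℕ) : Fin (n + 1) → ((Fin n → ℝ) →ₗ[ℝ] ℝ) :=
  Fin.cases (-∑ j : Fin n, LinearMap.proj j) (fun j => LinearMap.proj j)

theorem psi_apply (i : Fin (n + 1)) (x y : Fin n → ℝ) :
    psi n i (x - y) = bary x i - bary y i := by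
  refine Fin.cases ?_ (fun j => ?_) i
  · simp [psi, bary_zero, Finset.sum_sub_distrib]
  · simp [psi, bary_succ]

theorem measure_bary_eq {i j : Fin (n + 1)} (hij : i ≠ j) :
    (volume : Measure (Fin n → ℝ)) {x | bary x i = bary x j} = 0 := by
  set s : AffineSubspace ℝ (Fin n → ℝ) :=
    AffineSubspace.mk' (ctr n) (LinearMap.ker (psi n i - psi n j)) with hs
  have hmem : ∀ x, x ∈ s ↔ bary x i = bary x j := by
    intro x
    rw [hs, AffineSubspace.mem_mk', LinearMap.mem_ker, vsub_eq_sub, LinearMap.sub_apply,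
      psi_apply, psi_apply]
    have h1 : bary (ctr n) i = bary (ctr n) j := by
      have h := bary_ray (ctr n) 0 i
      have h' := bary_ray (ctr n) 0 j
      simp only [zero_smul, add_zero, zero_mul] at h h'
      rw [h, h']
    rw [h1]
    constructor
    · intro h; linarith
    · intro h; linarith
  have hne : s ≠ ⊤ := by
    intro htop
    have h1 : (fun k : Fin n => (Pi.single i (1 : ℝ) : Fin (n + 1) → ℝ) k.succ) ∈ s := by
      rw [htop]; exact AffineSubspace.mem_top _ _ _
    rw [hmem] at h1
    have h2 : ∀ k : Fin (n + 1), bary (fun k : Fin n => (Pi.single i (1 : ℝ) : Fin (n + 1) → ℝ) k.succ) k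
        = (Pi.single i (1 : ℝ) : Fin (n + 1) → ℝ) k := by
      intro k
      refine Fin.cases ?_ (fun k => ?_) k
      · rw [bary_zero]
        have : ∑ k : Fin (n + 1), (Pi.single i (1 : ℝ) : Fin (n + 1) → ℝ) k = 1 := by
          rw [Finset.sum_eq_single i]
          · simp
          · intro b _ hb; simp [hb]
          · intro h; exact absurd (Finset.mem_univ _) h
        rw [Fin.sum_univ_succ] at this
        linarith
      · rw [bary_succ]
    rw [h2, h2, Pi.single_eq_same, Pi.single_eq_of_ne hij.symm] at h1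
    exact one_ne_zero h1
  have h3 : {x : Fin n → ℝ | bary x i = bary x j} = (s : Set (Fin n → ℝ)) := by
    ext x; exact (hmem x).symm
  rw [h3]
  exact Measure.addHaar_affineSubspace _ s hne

theorem integral_corner_eq_sum {F : (Fin n → ℝ) → ℝ} (hF : IntegrableOn F (corner n)) :
    ∫ x in corner n, F x = ∑ i : Fin (n + 1), ∫ x in piece i, F x := by
  have h := integral_iUnion_ae (μ := (volume : Measure (Fin n → ℝ))) (f := F)
    (s := fun i : Fin (n + 1) => piece i)
    (fun i => (isClosed_piece i).measurableSet.nullMeasurableSet)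
    (fun i j hij => by
      refine measure_mono_null (fun x hx => ?_) (measure_bary_eq hij)
      exact le_antisymm (hx.1.2 j) (hx.2.2 i))
    (by rw [← corner_eq_iUnion]; exact hF)
  rw [← corner_eq_iUnion, tsum_fintype] at h
  exact h

/-! ### change of variables on a piece -/

theorem det_Li_ne (i : Fin (n + 1)) : (Li i).det ≠ 0 := by
  rw [det_Li]
  exact div_ne_zero (pow_ne_zero _ (by norm_num)) (n1 n).ne'

theorem fderiv_comp_Amap (g : (Fin n → ℝ) → (Fin n → ℝ)) (i : Fin (n + 1)) (t : Fin n → ℝ) :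
    (fderiv ℝ (g ∘ Amap i) t).det = (fderiv ℝ g (Amap i t)).det * (Li i).det := by
  set e : (Fin n → ℝ) ≃L[ℝ] (Fin n → ℝ) :=
    (Li i).toContinuousLinearEquivOfDetNeZero (det_Li_ne i) with he
  have he' : ((e : (Fin n → ℝ) ≃L[ℝ] (Fin n → ℝ)) : (Fin n → ℝ) →L[ℝ] (Fin n → ℝ)) = Li i := by
    rw [he]; exact ContinuousLinearMap.coe_toContinuousLinearEquivOfDetNeZero _ _
  have hea : ∀ x, e x = Li i x := fun x => by rw [← he']; rfl
  have h1 : g ∘ Amap i = (fun y => g (y + Amap i 0)) ∘ e := by
    funext x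
    simp only [Function.comp_apply, hea]
    rw [Amap_eq, add_comm]
  rw [h1, ContinuousLinearEquiv.comp_right_fderiv, he', fderiv_comp_add_right, hea,
    add_comm (Li i t), ← Amap_eq]
  have : ∀ (A B : (Fin n → ℝ) →L[ℝ] (Fin n → ℝ)), (A.comp B).det = A.det * B.det := by
    intro A B
    simp only [ContinuousLinearMap.det]
    exact LinearMap.det_comp (A : (Fin n → ℝ) →ₗ[ℝ] (Fin n → ℝ)) (B : (Fin n → ℝ) →ₗ[ℝ] (Fin n → ℝ))
  exact this _ _

theorem integral_piece (g : (Fin n → ℝ) → (Fin n → ℝ)) (i : Fin (n + 1)) :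
    ∫ x in piece i, (fderiv ℝ g x).det
      = (-1) ^ (i : ℕ) * ∫ t in corner n, (fderiv ℝ (g ∘ Amap i) t).det := by
  rw [← Amap_image, integral_image_eq_integral_abs_det_fderiv_smul volume
    isClosed_corner.measurableSet (fun x _ => (Amap_hasFDerivAt i x).hasFDerivWithinAt)
    (Amap_inj i).injOn, ← integral_const_mul]
  congr 1
  funext t
  rw [fderiv_comp_Amap, det_Li, smul_eq_mul, abs_div, abs_pow, abs_neg, abs_one, one_pow,
    abs_of_pos (n1 n)]
  have h : ((-1 : ℝ) ^ (i : ℕ)) * (-1) ^ (i : ℕ) = 1 := by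
    rw [← pow_add, ← two_mul, pow_mul]; simp
  have h2 : (-1 : ℝ) ^ (i : ℕ) * ((fderiv ℝ g (Amap i t)).det * ((-1) ^ (i : ℕ) / (↑n + 1)))
      = ((-1 : ℝ) ^ (i : ℕ) * (-1) ^ (i : ℕ)) * (1 / (n + 1) * (fderiv ℝ g (Amap i t)).det) := by
    ring
  rw [h2, h, one_mul]

end Pool.Agent.TH649.SE
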