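import Pool.Agent.TH649.SE.Geo

/-! Linear parts of the affine maps of the cone decomposition, and their determinants. -/

set_option autoImplicit false

open MeasureTheory
open scoped NNReal

namespace Pool.Agent.TH649.SE

open Pool.Agent.TH630

variable {n : ℕ}

/-- the matrix of the `i`-th affine map in barycentric coordinates -/
noncomputable def Bm (i : Fin (n + 1)) : Matrix (Fin (n + 1)) (Fin (n + 1)) ℝ :=
  Matrix.of fun r c => Fin.cases (motive := fun _ => ℝ) (1 / (n + 1 : ℝ))
    (fun k => if r = i.succAbove k then 1 else 0) c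

/-- the linear part of the `i`-th affine map -/
noncomputable def Lm (i : Fin (n + 1)) : Matrix (Fin n) (Fin n) ℝ :=
  Matrix.of fun j k => (if j.succ = i.succAbove k then 1 else 0) - 1 / (n + 1 : ℝ)

theorem Bm_zero (i r : Fin (n + 1)) : Bm i r 0 = 1 / (n + 1 : ℝ) := rfl
theorem Bm_succ (i r : Fin (n + 1)) (k : Fin n) :
    Bm i r k.succ = if r = i.succAbove k then 1 else 0 := rfl

theorem det_Bm (i : Fin (n + 1)) : (Bm i).det = (-1) ^ (i : ℕ) / (n + 1 : ℝ) := by
  rw [Matrix.det_succ_column_zero, Finset.sum_eq_single i]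
  · have h : (Bm i).submatrix i.succAbove Fin.succ = 1 := by
      ext j k
      rw [Matrix.submatrix_apply, Bm_succ, Matrix.one_apply]
      simp
    rw [h, Bm_zero, Matrix.det_one]
    ring
  · intro r _ hr
    have h : ((Bm i).submatrix r.succAbove Fin.succ).det = 0 := by
      obtain ⟨j, hj⟩ := Fin.exists_succAbove_eq hr.symm
      apply Matrix.det_eq_zero_of_row_eq_zero j
      intro k
      rw [Matrix.submatrix_apply, Bm_succ, hj, if_neg]
      exact (Fin.succAbove_ne i k).symm
    rw [h, mul_zero]
  · intro h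
    exact absurd (Finset.mem_univ i) h

theorem det_Lm (i : Fin (n + 1)) : (Lm i).det = (-1) ^ (i : ℕ) / (n + 1 : ℝ) := by
  have h := n1 n
  rw [← det_Bm]
  -- replace row 0 by the sum of all rows
  have h1 := Matrix.det_updateRow_sum (Bm i) 0 (fun _ => 1)
  simp only [one_smul] at h1
  rw [← h1]
  set B' := (Bm i).updateRow 0 (∑ k, Bm i k) with hB'
  have hB0 : ∀ c, B' 0 c = 1 := by
    intro c
    rw [hB', Matrix.updateRow_self]
    have e : (∑ k, Bm i k) c = ∑ k, Bm i k c :=
      Finset.sum_apply (M := fun _ => ℝ) c Finset.univ (fun k => Bm i k)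
    rw [e]
    refine Fin.cases ?_ (fun k => ?_) c
    · simp only [Bm_zero, Finset.sum_const, Finset.card_univ, Fintype.card_fin, nsmul_eq_mul]
      push_cast
      field_simp
    · simp only [Bm_succ]
      simp
  have hBs : ∀ (j : Fin n) c, B' j.succ c = Bm i j.succ c := by
    intro j c
    rw [hB', Matrix.updateRow_ne (Fin.succ_ne_zero j)]
  -- subtract column 0
  have h2 : B'.det = (Matrix.of fun r c : Fin (n + 1) =>
      B' r c + (Fin.cases (motive := fun _ => ℝ) 0 (fun _ => -1) c) * B' r 0).det := by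
    rw [← Matrix.det_transpose, ← Matrix.det_transpose (Matrix.of _)]
    refine (Matrix.det_eq_of_forall_row_eq_smul_add_const
      (fun c => Fin.cases (motive := fun _ => ℝ) 0 (fun _ => -1) c) 0 rfl ?_).symm
    intro r c
    rfl
  rw [h2, Matrix.det_succ_row_zero, Finset.sum_eq_single 0]
  · simp only [Fin.val_zero, pow_zero, one_mul, Matrix.of_apply, Fin.cases_zero, zero_mul, add_zero]
    rw [hB0, one_mul]
    congr 1
    ext j k
    simp only [Matrix.submatrix_apply, Matrix.of_apply, Fin.zero_succAbove, Fin.cases_succ]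
    rw [hBs, hBs, Bm_zero, Bm_succ]
    simp only [Lm, Matrix.of_apply]
    ring
  · intro c _ hc
    obtain ⟨k, rfl⟩ := Fin.exists_succ_eq.2 hc
    simp only [Matrix.of_apply, Fin.cases_succ]
    rw [hB0, hB0]
    ring
  · intro h
    exact absurd (Finset.mem_univ _) h

/-- the linear part as a continuous linear map -/
noncomputable def Li (i : Fin (n + 1)) : (Fin n → ℝ) →L[ℝ] (Fin n → ℝ) :=
  LinearMap.toContinuousLinearMap (Matrix.toLin' (Lm i))

theorem det_Li (i : Fin (n + 1)) : (Li i).det = (-1) ^ (i : ℕ) / (n + 1 : ℝ) := by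
  rw [Li, ContinuousLinearMap.det]
  rw [LinearMap.coe_toContinuousLinearMap, LinearMap.det_toLin', det_Lm]

theorem Amap_eq (i : Fin (n + 1)) (t : Fin n → ℝ) : Amap i t = Amap i 0 + Li i t := by
  have h := n1 n
  funext j
  simp only [Amap, Li, Pi.add_apply, Pi.zero_apply, LinearMap.coe_toContinuousLinearMap',
    Matrix.toLin'_apply, Matrix.mulVec, dotProduct, Lm, Matrix.of_apply]
  have h0 : (i.insertNth (0 : ℝ) (0 : Fin n → ℝ) : Fin (n + 1) → ℝ) j.succ = 0 := by
    generalize j.succ = r
    refine Fin.succAboveCases i ?_ (fun k => ?_) r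
    · simp
    · simp
  have h1 : (i.insertNth (0 : ℝ) t : Fin (n + 1) → ℝ) j.succ
      = ∑ k, (if j.succ = i.succAbove k then 1 else 0) * t k := by
    generalize j.succ = r
    refine Fin.succAboveCases i ?_ (fun k => ?_) r
    · simp only [Fin.insertNth_apply_same]
      symm
      apply Finset.sum_eq_zero
      intro k _
      rw [if_neg (Fin.succAbove_ne i k).symm, zero_mul]
    · simp only [Fin.insertNth_apply_succAbove, Fin.succAbove_right_inj]
      simp
  rw [h0, h1]
  simp only [sub_mul, Finset.sum_sub_distrib, Finset.sum_const_zero]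
  rw [← Finset.mul_sum]
  field_simp
  ring

theorem Amap_hasFDerivAt (i : Fin (n + 1)) (t : Fin n → ℝ) : HasFDerivAt (Amap i) (Li i) t := by
  have : Amap i = fun t => Amap i 0 + Li i t := funext (Amap_eq i)
  rw [this]
  exact (Li i).hasFDerivAt.const_add _

end Pool.Agent.TH649.SE
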